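import Pool.Agent.V11103.EFDefs

/-!
The split graph on ten vertices, monotone profiles, and a table of the connected vertex sets.
-/

namespace Pool.Agent.Helper99K9.EFM

open Finset
open Pool.Agent.V11103.EF (Traceable IsAllocation IsConnectedAllocation IsOuter IsEF1Outer)

/-- A profile of monotone valuations: every agent has a nonnegative valuation `v i` with
`v i S ≤ v i T` whenever `S ⊆ T`. -/
def IsMonotoneProfile {V : Type} {n : ℕ} (v : Fin n → Finset V → ℝ) : Prop :=
  ∀ i, (∀ S, 0 ≤ v i S) ∧ ∀ S T, S ⊆ T → v i S ≤ v i T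

/-- `G` universally guarantees connected EF1 (outer) allocations for all profiles of monotone
valuations. -/
def UniversallyGuarantees {V : Type} [DecidableEq V] (G : SimpleGraph V) : Prop :=
  ∀ n : ℕ, 1 ≤ n → ∀ v : Fin n → Finset V → ℝ, IsMonotoneProfile v →
    ∃ A : Fin n → Finset V, IsAllocation A ∧ IsConnectedAllocation G A ∧ IsEF1Outer G v A

/-- The nine edges of `splitGraph` outside the clique `{5, 6, 7, 8, 9}`. -/
def splitEdges : List (Fin 10 × Fin 10) :=
  [(0, 5), (1, 6), (2, 7), (2, 9), (3, 8), (3, 9), (4, 5), (4, 6), (4, 9)]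

/-- The split graph on ten vertices: a clique on `{5, 6, 7, 8, 9}`, and vertices `0, 1, 2, 3, 4`
with neighbourhoods `{5}`, `{6}`, `{7, 9}`, `{8, 9}`, `{5, 6, 9}`. -/
def splitGraph : SimpleGraph (Fin 10) where
  Adj a b := a ≠ b ∧ ((5 ≤ a ∧ 5 ≤ b) ∨ (a, b) ∈ splitEdges ∨ (b, a) ∈ splitEdges)
  symm := ⟨by intro a b; revert a b; decide⟩
  loopless := ⟨by intro a; revert a; decide⟩

instance : DecidableRel splitGraph.Adj := fun a b =>
  inferInstanceAs (Decidable (a ≠ b ∧ ((5 ≤ a ∧ 5 ≤ b) ∨ (a, b) ∈ splitEdges ∨
    (b, a) ∈ splitEdges)))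

/-- The set of a mask. -/
def toSet (m : ℕ) : Finset (Fin 10) := univ.filter fun v => m.testBit v = true

theorem mem_toSet {m : ℕ} {v : Fin 10} : v ∈ toSet m ↔ m.testBit v = true := by
  simp [toSet]

/-- Neighbour masks. -/
def nbrs : List ℕ := [32, 64, 640, 768, 608, 977, 946, 868, 744, 508]

theorem nbrs_spec : ∀ a b : Fin 10, (nbrs.getD a 0).testBit b = true → splitGraph.Adj a b := by
  decide +kernel

/-- One closure step inside the mask `m`. -/
def step (m f : ℕ) : ℕ :=
  (List.range 10).foldl (fun acc v => if f.testBit v then acc ||| (nbrs.getD v 0 &&& m) else acc) f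

def iter (m : ℕ) : ℕ → ℕ → ℕ
  | 0, f => f
  | k + 1, f => iter m k (step m f)

/-- The mask `m` is connected: the closure of some vertex `v` of `m` is `m`. -/
def connFrom (m v : ℕ) : Bool := m.testBit v && (iter m 9 (2 ^ v) == m)

def conn (m : ℕ) : Bool := (List.range 10).any fun v => connFrom m v

/-- Table of the connected masks (including the empty mask). -/
def CT : ℕ := 0xffffffff555555553333333311111111ffffffff555555553333333311111111ffffffff555555553333333311111111ffffffff555555553333333311111111ffffffff5555555533333333000011110f0f0f0f05050505030303030000010100ff00ff005500550033003300000011000f000f000500050003000300010117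

theorem CT_spec : ∀ m < 1024, CT.testBit m = true → m = 0 ∨ conn m = true := by
  have h : (List.range 1024).all (fun m => !CT.testBit m || (m == 0 || conn m)) = true := by
    decide +kernel
  intro m hm ht
  rw [List.all_eq_true] at h
  have := h m (List.mem_range.2 hm)
  simpa [ht] using this

/-- invariants of the closure -/
def Inv (m : ℕ) (v₀ : Fin 10) (f : ℕ) : Prop :=
  ∀ u : Fin 10, f.testBit u = true → ∃ (h0 : v₀ ∈ toSet m) (hu : u ∈ toSet m),
    (splitGraph.induce (toSet m : Set (Fin 10))).Reachable ⟨v₀, h0⟩ ⟨u, hu⟩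

theorem inv_step {m : ℕ} {v₀ : Fin 10} {f : ℕ} (h : Inv m v₀ f) : Inv m v₀ (step m f) := by
  unfold step
  have key : ∀ (l : List ℕ), (∀ x ∈ l, x < 10) → ∀ acc, Inv m v₀ acc →
      Inv m v₀ (l.foldl (fun acc v => if f.testBit v then acc ||| (nbrs.getD v 0 &&& m) else acc)
        acc) := by
    intro l
    induction l with
    | nil => intro _ acc ha; exact ha
    | cons x xs ih =>
      intro hx acc ha
      rw [List.foldl_cons]
      apply ih (fun y hy => hx y (List.mem_cons_of_mem _ hy))
      split_ifs with hf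
      · intro u hu
        rw [Nat.testBit_or, Bool.or_eq_true] at hu
        rcases hu with hu | hu
        · exact ha u hu
        · rw [Nat.testBit_and, Bool.and_eq_true] at hu
          have hx10 : x < 10 := hx x (List.mem_cons_self ..)
          obtain ⟨h0, h1, h2⟩ := h ⟨x, hx10⟩ hf
          have hadj : splitGraph.Adj ⟨x, hx10⟩ u := nbrs_spec ⟨x, hx10⟩ u hu.1
          have hum : u ∈ toSet m := mem_toSet.2 hu.2
          refine ⟨h0, hum, h2.trans ?_⟩
          apply SimpleGraph.Adj.reachable
          exact hadj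
      · exact ha
  exact key _ (fun x hx => List.mem_range.1 hx) f h

theorem inv_iter {m : ℕ} {v₀ : Fin 10} : ∀ (k : ℕ) {f : ℕ}, Inv m v₀ f → Inv m v₀ (iter m k f)
  | 0, _, h => h
  | k + 1, _, h => inv_iter k (inv_step h)

theorem conn_spec {m : ℕ} (h : conn m = true) :
    (splitGraph.induce (toSet m : Set (Fin 10))).Connected := by
  unfold conn at h
  rw [List.any_eq_true] at h
  obtain ⟨v, hv, hc⟩ := h
  have hv10 : v < 10 := List.mem_range.1 hv
  unfold connFrom at hc
  rw [Bool.and_eq_true, beq_iff_eq] at hc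
  obtain ⟨h1, h2⟩ := hc
  have h0 : (⟨v, hv10⟩ : Fin 10) ∈ toSet m := mem_toSet.2 h1
  have hinit : Inv m ⟨v, hv10⟩ (2 ^ v) := by
    intro u hu
    have huv : u = ⟨v, hv10⟩ := by
      rw [Nat.testBit_two_pow] at hu
      ext
      simpa using (of_decide_eq_true hu).symm
    subst huv
    exact ⟨h0, h0, SimpleGraph.Reachable.refl _⟩
  have hfin := inv_iter 9 hinit
  rw [h2] at hfin
  rw [SimpleGraph.connected_iff_exists_forall_reachable]
  refine ⟨⟨⟨v, hv10⟩, h0⟩, ?_⟩
  rintro ⟨u, hu⟩
  obtain ⟨_, _, h3⟩ := hfin u (mem_toSet.1 hu)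
  exact h3

theorem CT_conn {m : ℕ} (hm : m < 1024) (h : CT.testBit m = true) (h0 : m ≠ 0) :
    (splitGraph.induce (toSet m : Set (Fin 10))).Connected :=
  conn_spec ((CT_spec m hm h).resolve_left h0)

theorem toSet_xor {m v : ℕ} (hv : v < 10) (h : m.testBit v = true) :
    toSet (m ^^^ 2 ^ v) = (toSet m).erase ⟨v, hv⟩ := by
  ext x
  rw [mem_toSet, Finset.mem_erase, mem_toSet, Nat.testBit_xor, Nat.testBit_two_pow]
  by_cases hx : v = x.val
  · have : x = ⟨v, hv⟩ := by ext; exact hx.symm
    subst this
    simp [h]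
  · have : x ≠ ⟨v, hv⟩ := by
      intro h'; exact hx (by rw [h'])
    simp [hx, this]

theorem toSet_zero : toSet 0 = ∅ := by
  ext x
  simp [mem_toSet]

theorem toSet_mono {a b : ℕ} (h : a &&& b = a) : toSet a ⊆ toSet b := by
  intro x hx
  rw [mem_toSet] at hx ⊢
  have := congrArg (fun y => y.testBit x) h
  simp only [Nat.testBit_and, hx, Bool.true_and] at this
  exact this

theorem xor_lt {m v : ℕ} (hm : m < 1024) (hv : v < 10) : m ^^^ 2 ^ v < 1024 := by
  have : (1024 : ℕ) = 2 ^ 10 := by norm_num
  rw [this] at hm ⊢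
  exact Nat.xor_lt_two_pow hm (Nat.pow_lt_pow_right (by norm_num) hv)

/-! ### Non-traceability and connectedness -/

/-- Is there a path extending the reversed path `l` (head = current end) by `k` more vertices? -/
def ext : ℕ → List (Fin 10) → Bool
  | 0, _ => true
  | _ + 1, [] => true
  | k + 1, a :: l => (List.finRange 10).any fun b =>
      decide (splitGraph.Adj b a) && !((a :: l).contains b) && ext k (b :: a :: l)

theorem ext_spec : ∀ (k : ℕ) (l m : List (Fin 10)), l ≠ [] → m.length = k →
    (m ++ l).IsChain splitGraph.Adj → (m ++ l).Nodup → ext k l = true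
  | 0, _, _, _, _, _, _ => rfl
  | k + 1, [], _, h, _, _, _ => absurd rfl h
  | k + 1, a :: l, m, _, hlen, hch, hnd => by
    obtain ⟨m', b, rfl⟩ : ∃ m' b, m = m' ++ [b] := by
      have hne : m ≠ [] := by intro h; rw [h] at hlen; simp at hlen
      exact ⟨m.dropLast, m.getLast hne, (List.dropLast_append_getLast hne).symm⟩
    have hm' : m'.length = k := by simpa using hlen
    rw [List.append_assoc, List.singleton_append] at hch hnd
    unfold ext
    rw [List.any_eq_true]
    refine ⟨b, List.mem_finRange b, ?_⟩
    rw [Bool.and_eq_true, Bool.and_eq_true]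
    refine ⟨⟨?_, ?_⟩, ext_spec k (b :: a :: l) m' (by simp) hm' hch hnd⟩
    · have h1 : (b :: a :: l).IsChain splitGraph.Adj := hch.right_of_append
      rw [List.isChain_cons_cons] at h1
      exact decide_eq_true h1.1
    · have h1 : (b :: a :: l).Nodup := hnd.of_append_right
      rw [List.nodup_cons] at h1
      simpa using h1.1

theorem ext_false : ∀ a : Fin 10, ext 9 [a] = false := by decide +kernel

theorem not_traceable : ¬ Traceable splitGraph := by
  rintro ⟨a, b, p, hp⟩
  have hnd : p.support.Nodup := by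
    rw [List.nodup_iff_count_le_one]
    intro x
    exact (hp x).le
  have hlen : p.support.length = 10 := by
    have : p.support.toFinset = univ := by
      ext x
      simp only [List.mem_toFinset, Finset.mem_univ, iff_true]
      have := hp x
      exact List.count_pos_iff.1 (by omega)
    rw [← List.toFinset_card_of_nodup hnd, this]
    simp
  have hch : p.support.IsChain splitGraph.Adj := p.isChain_adj_support
  -- write the support as `m ++ [c]`
  have hne : p.support ≠ [] := p.support_ne_nil
  have hs : p.support.dropLast ++ [p.support.getLast hne] = p.support :=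
    List.dropLast_append_getLast hne
  have := ext_spec 9 [p.support.getLast hne] p.support.dropLast (by simp)
    (by rw [List.length_dropLast, hlen]) (by rw [hs]; exact hch) (by rw [hs]; exact hnd)
  rw [ext_false] at this
  exact absurd this (by decide)

theorem connected_splitGraph : splitGraph.Connected := by
  have h : ∀ u : Fin 10, u = 5 ∨ splitGraph.Adj 5 u ∨
      ∃ x, splitGraph.Adj 5 x ∧ splitGraph.Adj x u := by
    decide +kernel
  rw [SimpleGraph.connected_iff_exists_forall_reachable]
  refine ⟨5, fun u => ?_⟩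
  rcases h u with h1 | h1 | ⟨x, h1, h2⟩
  · rw [h1]
  · exact h1.reachable
  · exact h1.reachable.trans h2.reachable

end Pool.Agent.Helper99K9.EFM
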