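import Pool.Agent.Helper99K9.EFM.Chain

/-!
The chain of partitions for 2 agents.
-/

namespace Pool.Agent.Helper99K9.EFM

def chain2 : List (List ℕ) :=
  [[3069, 68541],
  [68541, 330429],
  [330429, 346797],
  [346797, 477741],
  [477741, 481833],
  [481833, 490017],
  [490017, 1013793],
  [1013793, 1046529]]

theorem chain2_ok : checkAll 2 chain2 = true := by decide +kernel

end Pool.Agent.Helper99K9.EFM
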