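import Pool.Agent.Helper99K9.EFM.Chain

/-!
The chain of partitions for 3 agents.
-/

namespace Pool.Agent.Helper99K9.EFM

def chain3 : List (List ℕ) :=
  [[2163645, 2425533, 69468861],
  [2425533, 2433717, 69477045],
  [2425533, 69468861, 69477045],
  [2433717, 2957493, 70000821],
  [2433717, 69477045, 70000821],
  [2957493, 2973861, 70017189],
  [2957493, 70000821, 70017189],
  [2973861, 2977953, 70021281],
  [2973861, 70017189, 70021281],
  [2977953, 3108897, 70152225],
  [2977953, 70021281, 70152225],
  [3108897, 3141633, 70184961],
  [3108897, 70152225, 70184961],
  [69211065, 69730749, 69734841],
  [69211065, 69734841, 203428665],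
  [69215157, 69468861, 69477045],
  [69215157, 69477045, 69738933],
  [69215157, 69730749, 69738933],
  [69477045, 69738933, 70000821],
  [69730749, 69734841, 69738933],
  [69734841, 69738933, 69743025],
  [69734841, 69743025, 203952441],
  [69734841, 203428665, 203952441],
  [69738933, 69743025, 70000821],
  [69743025, 70000821, 338178225],
  [69743025, 203952441, 203960625],
  [69743025, 203960625, 338178225],
  [70000821, 70017189, 338190501],
  [70000821, 338178225, 338190501],
  [70017189, 70021281, 338194593],
  [70017189, 338190501, 338194593],
  [70021281, 70152225, 338325537],
  [70021281, 338194593, 338325537],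
  [70152225, 70184961, 103706625],
  [70152225, 103706625, 338325537],
  [103706625, 338325537, 371879937],
  [203428665, 203952441, 208142649],
  [203952441, 203960625, 208150833],
  [203952441, 208142649, 208150833],
  [203960625, 208150833, 472395825],
  [203960625, 338178225, 472395825],
  [207627057, 208142649, 208150833],
  [207627057, 208150833, 476062257],
  [208150833, 472395825, 476586033],
  [208150833, 476062257, 476586033],
  [338178225, 338190501, 338194593],
  [338178225, 338194593, 472395825],
  [338194593, 338325537, 472412193],
  [338194593, 472395825, 472412193],
  [338325537, 371879937, 472412193],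
  [371879937, 472412193, 505966593],
  [472395825, 472412193, 476602401],
  [472395825, 476586033, 476602401],
  [472412193, 476602401, 505966593],
  [476062257, 476586033, 484966449],
  [476586033, 476602401, 484982817],
  [476586033, 484966449, 484982817],
  [476602401, 484982817, 510156801],
  [476602401, 505966593, 510156801],
  [484966449, 484982817, 1021329441],
  [484982817, 510156801, 518537217],
  [484982817, 518537217, 1021329441],
  [518537217, 1021329441, 1054883841]]

theorem chain3_ok : checkAll 3 chain3 = true := by decide +kernel

end Pool.Agent.Helper99K9.EFM
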