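import Mathlib

/-!
Complete flags of a multiset with prescribed labels, counted modulo two (the parity argument of
Sperner's lemma).
-/

namespace Pool.Agent.Helper99K9.EFM

open Finset

variable {β : Type*} [DecidableEq β]

/-- The number (mod 2) of complete flags of the multiset `M` whose labels are exactly `T`. -/
def G (lab : Multiset β → ℕ) : ℕ → Multiset β → Finset ℕ → ZMod 2
  | 0, _, T => if T = ∅ then 1 else 0
  | k + 1, M, T =>
    if lab M ∈ T then (M.map fun x => G lab k (M.erase x) (T.erase (lab M))).sum else 0

theorem double_sum (M : Multiset β) : ∀ g : Multiset β → ZMod 2,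
    (M.map fun x => ((M.erase x).map fun y => g ((M.erase x).erase y)).sum).sum = 0 := by
  induction M using Multiset.induction with
  | empty => intro g; simp
  | cons a M ih =>
    intro g
    rw [Multiset.map_cons, Multiset.sum_cons, Multiset.erase_cons_head]
    have h : (M.map fun x => (((a ::ₘ M).erase x).map
        fun y => g (((a ::ₘ M).erase x).erase y)).sum) =
        M.map fun x => g (M.erase x) +
          ((M.erase x).map fun y => g (a ::ₘ ((M.erase x).erase y))).sum := by
      apply Multiset.map_congr rfl
      intro x hx
      have h1 : (a ::ₘ M).erase x = a ::ₘ (M.erase x) := by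
        by_cases hxa : x = a
        · subst hxa
          rw [Multiset.erase_cons_head, Multiset.cons_erase hx]
        · rw [Multiset.erase_cons_tail _ (Ne.symm hxa)]
      rw [h1, Multiset.map_cons, Multiset.sum_cons, Multiset.erase_cons_head]
      congr 2
      apply Multiset.map_congr rfl
      intro y hy
      congr 1
      by_cases hya : y = a
      · subst hya
        rw [Multiset.erase_cons_head, Multiset.cons_erase hy]
      · rw [Multiset.erase_cons_tail _ (Ne.symm hya)]
    rw [h, Multiset.sum_map_add, ih (fun N => g (a ::ₘ N)), add_zero]
    exact CharTwo.add_self_eq_zero _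

theorem sum_map_finset_sum {ι : Type*} (M : Multiset β) (s : Finset ι) (f : β → ι → ZMod 2) :
    (M.map fun x => ∑ j ∈ s, f x j).sum = ∑ j ∈ s, (M.map fun x => f x j).sum := by
  induction M using Multiset.induction with
  | empty => simp
  | cons a M ih => simp [ih, Finset.sum_add_distrib]

/-- The parity identity. -/
theorem key (lab : Multiset β → ℕ) (J : Finset ℕ) : ∀ (k : ℕ) (M : Multiset β) (T : Finset ℕ),
    M.card = k + 1 → T ⊆ J → T.card = k → (∀ N ≤ M, N ≠ 0 → lab N ∈ J) →
    (M.map fun x => G lab k (M.erase x) T).sum = ∑ j ∈ J \ T, G lab (k + 1) M (insert j T) := by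
  intro k
  induction k with
  | zero =>
    intro M T hM hTJ hT hl
    have hM0 : M ≠ 0 := by intro h; rw [h] at hM; simp at hM
    have hT0 : T = ∅ := Finset.card_eq_zero.1 hT
    subst hT0
    obtain ⟨a, rfl⟩ := Multiset.card_eq_one.1 hM
    have hlM := hl {a} le_rfl hM0
    simp only [G, Multiset.map_singleton, Multiset.sum_singleton, if_true, Finset.sdiff_empty,
      insert_empty_eq, Finset.mem_singleton]
    rw [Finset.sum_eq_single (lab {a})]
    · simp
    · intro j _ hj
      rw [if_neg (fun h => hj h.symm)]
    · intro h; exact absurd hlM h
  | succ k ih =>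
    intro M T hM hTJ hT hl
    have hM0 : M ≠ 0 := by intro h; rw [h] at hM; simp at hM
    have hlM := hl M le_rfl hM0
    by_cases hT' : lab M ∈ T
    · -- the label of `M` is in `T`
      have hcard : (T.erase (lab M)).card = k := by
        rw [Finset.card_erase_of_mem hT', hT]; rfl
      have hR : ∑ j ∈ J \ T, G lab (k + 1 + 1) M (insert j T) =
          (M.map fun x => ∑ j ∈ J \ T,
            G lab (k + 1) (M.erase x) (insert j (T.erase (lab M)))).sum := by
        rw [sum_map_finset_sum]
        apply Finset.sum_congr rfl
        intro j hj
        rw [Finset.mem_sdiff] at hj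
        have hjl : j ≠ lab M := fun h => hj.2 (h ▸ hT')
        have h1 : (insert j T).erase (lab M) = insert j (T.erase (lab M)) := by
          rw [Finset.erase_insert_of_ne hjl]
        rw [show G lab (k + 1 + 1) M (insert j T) = if lab M ∈ insert j T then
          (M.map fun x => G lab (k + 1) (M.erase x) ((insert j T).erase (lab M))).sum else 0
          from rfl, if_pos (Finset.mem_insert_of_mem hT'), h1]
      have hI : ∀ x ∈ M, ∑ j ∈ J \ T, G lab (k + 1) (M.erase x) (insert j (T.erase (lab M))) =
          ((M.erase x).map fun y => G lab k ((M.erase x).erase y) (T.erase (lab M))).sum +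
          G lab (k + 1) (M.erase x) T := by
        intro x hx
        have hc : (M.erase x).card = k + 1 := by
          rw [Multiset.card_erase_of_mem hx, hM]; rfl
        have h1 := ih (M.erase x) (T.erase (lab M)) hc
          ((Finset.erase_subset _ _).trans hTJ) hcard
          (fun N hN hN0 => hl N (hN.trans (Multiset.erase_le _ _)) hN0)
        have h2 : J \ T.erase (lab M) = insert (lab M) (J \ T) := by
          ext j
          simp only [Finset.mem_sdiff, Finset.mem_erase, Finset.mem_insert]
          by_cases hj : j = lab M
          · subst hj; simp [hlM]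
          · simp [hj]
        have h3 : lab M ∉ J \ T := by simp [hT']
        rw [h2, Finset.sum_insert h3, Finset.insert_erase hT'] at h1
        rw [h1, add_comm (G lab (k + 1) (M.erase x) T), add_assoc, CharTwo.add_self_eq_zero,
          add_zero]
      rw [hR, Multiset.map_congr rfl hI, Multiset.sum_map_add,
        double_sum M (fun N => G lab k N (T.erase (lab M))), zero_add]
    · -- the label of `M` is not in `T`
      rw [Finset.sum_eq_single (lab M)]
      · rw [show G lab (k + 1 + 1) M (insert (lab M) T) = if lab M ∈ insert (lab M) T then
          (M.map fun x => G lab (k + 1) (M.erase x) ((insert (lab M) T).erase (lab M))).sum else 0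
          from rfl, if_pos (Finset.mem_insert_self _ _), Finset.erase_insert hT']
      · intro j hj hjl
        rw [show G lab (k + 1 + 1) M (insert j T) = if lab M ∈ insert j T then
          (M.map fun x => G lab (k + 1) (M.erase x) ((insert j T).erase (lab M))).sum else 0
          from rfl, if_neg]
        rw [Finset.mem_insert]
        rintro (h | h)
        · exact hjl h.symm
        · exact hT' h
      · intro h
        exact absurd (Finset.mem_sdiff.2 ⟨hlM, hT'⟩) h

/-- A label which does not occur kills the count. -/
theorem G_small (lab : Multiset β → ℕ) (j : ℕ) : ∀ (k : ℕ) (M : Multiset β) (T : Finset ℕ),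
    M.card = k → j ∈ T → (∀ N ≤ M, N ≠ 0 → lab N ≠ j) → G lab k M T = 0 := by
  intro k
  induction k with
  | zero =>
    intro M T _ hj _
    rw [G, if_neg]
    intro h
    rw [h] at hj
    simp at hj
  | succ k ih =>
    intro M T hM hj hl
    have hM0 : M ≠ 0 := by intro h; rw [h] at hM; simp at hM
    rw [G]
    split_ifs with h
    · have : (M.map fun x => G lab k (M.erase x) (T.erase (lab M))) = M.map fun _ => 0 := by
        apply Multiset.map_congr rfl
        intro x hx
        apply ih
        · rw [Multiset.card_erase_of_mem hx, hM]; rfl
        · exact Finset.mem_erase.2 ⟨(hl M le_rfl hM0).symm, hj⟩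
        · exact fun N hN hN0 => hl N (hN.trans (Multiset.erase_le _ _)) hN0
      rw [this]
      simp
    · rfl

/-- Relabelling of the points does not change the count. -/
theorem G_map (lab : Multiset β → ℕ) (π : β → β) : ∀ (k : ℕ) (M : Multiset β) (T : Finset ℕ),
    M.card = k → (∀ N ≤ M, N ≠ 0 → lab (N.map π) = lab N) →
    G lab k (M.map π) T = G lab k M T := by
  intro k
  induction k with
  | zero => intro M T _ _; rfl
  | succ k ih =>
    intro M T hM hl
    have hM0 : M ≠ 0 := by intro h; rw [h] at hM; simp at hM
    rw [G, G, hl M le_rfl hM0]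
    split_ifs with h
    · congr 1
      rw [Multiset.map_map]
      apply Multiset.map_congr rfl
      intro x hx
      simp only [Function.comp]
      rw [← Multiset.map_erase_of_mem _ _ hx]
      apply ih
      · rw [Multiset.card_erase_of_mem hx, hM]; rfl
      · exact fun N hN hN0 => hl N (hN.trans (Multiset.erase_le _ _)) hN0
    · rfl

/-- A nonzero count gives a flag. -/
theorem exists_flag (lab : Multiset β → ℕ) : ∀ (k : ℕ) (M : Multiset β) (T : Finset ℕ),
    M.card = k + 1 → G lab (k + 1) M T ≠ 0 →
    ∃ F ∈ M, ∃ σ : ℕ → ℕ, (∀ i < k + 1, σ i ∈ T) ∧ (∀ i < k + 1, ∀ j < k + 1, σ i = σ j → i = j) ∧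
      ∀ i < k + 1, ∃ Q ≤ M, Q.card = i + 1 ∧ F ∈ Q ∧ lab Q = σ i := by
  intro k
  induction k with
  | zero =>
    intro M T hM hG
    rw [G] at hG
    split_ifs at hG with h
    · obtain ⟨a, rfl⟩ := Multiset.card_eq_one.1 hM
      refine ⟨a, Multiset.mem_singleton_self a, fun _ => lab {a}, fun _ _ => h, ?_, ?_⟩
      · intro i hi j hj _; omega
      · intro i hi
        have : i = 0 := by omega
        subst this
        exact ⟨{a}, le_rfl, hM, Multiset.mem_singleton_self a, rfl⟩
    · exact absurd rfl hG
  | succ k ih =>
    intro M T hM hG
    rw [G] at hG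
    split_ifs at hG with h
    · have : ∃ x ∈ M, G lab (k + 1) (M.erase x) (T.erase (lab M)) ≠ 0 := by
        by_contra hcon
        push Not at hcon
        apply hG
        rw [Multiset.map_congr rfl hcon]
        simp
      obtain ⟨x, hx, hx0⟩ := this
      obtain ⟨F, hF, σ, h1, h2, h3⟩ := ih (M.erase x) (T.erase (lab M))
        (by rw [Multiset.card_erase_of_mem hx, hM]; rfl) hx0
      refine ⟨F, Multiset.mem_of_mem_erase hF, fun i => if i = k + 1 then lab M else σ i,
        ?_, ?_, ?_⟩
      · intro i hi
        by_cases hik : i = k + 1
        · simp [hik, h]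
        · simp only [hik, if_false]
          exact Finset.mem_of_mem_erase (h1 i (by omega))
      · intro i hi j hj hij
        by_cases hik : i = k + 1 <;> by_cases hjk : j = k + 1
        · omega
        · simp only [hik, hjk, if_true, if_false] at hij
          have := h1 j (by omega)
          rw [← hij] at this
          exact absurd rfl (Finset.mem_erase.1 this).1
        · simp only [hik, hjk, if_true, if_false] at hij
          have := h1 i (by omega)
          rw [hij] at this
          exact absurd rfl (Finset.mem_erase.1 this).1
        · simp only [hik, hjk, if_false] at hij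
          exact h2 i (by omega) j (by omega) hij
      · intro i hi
        by_cases hik : i = k + 1
        · subst hik
          exact ⟨M, le_rfl, hM, Multiset.mem_of_mem_erase hF, by simp⟩
        · obtain ⟨Q, hQ, hc, hFQ, hl⟩ := h3 i (by omega)
          exact ⟨Q, hQ.trans (Multiset.erase_le _ _), hc, hFQ, by simp [hik, hl]⟩
    · exact absurd rfl hG

end Pool.Agent.Helper99K9.EFM
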