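import Pool.Agent.Helper99K9.EFM.Base
import Pool.Agent.Helper99K9.EFM.Flags

/-!
Chains of partitions whose iterated boundary is odd give EF1 (outer) allocations for all monotone
profiles (a discrete version of Sperner's lemma).
-/

namespace Pool.Agent.Helper99K9.EFM

open Finset
open Pool.Agent.V11103.EF (Traceable IsAllocation IsConnectedAllocation IsOuter IsEF1Outer)

/-! ### Masks and values -/

/-- The `l`-th bundle (a mask) of the partition with code `c`. -/
def comp (l c : ℕ) : ℕ := c / 1024 ^ l % 1024

/-- At least two vertices. -/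
def big (m : ℕ) : Bool := (m &&& (m - 1)) != 0

theorem comp_lt (l c : ℕ) : comp l c < 1024 := Nat.mod_lt _ (by norm_num)

theorem comp_mod {l k c : ℕ} (h : l < k) : comp l (c % 1024 ^ k) = comp l c := by
  unfold comp
  obtain ⟨d, rfl⟩ : ∃ d, k = l + (d + 1) := ⟨k - l - 1, by omega⟩
  rw [pow_add, Nat.mod_mul_right_div_self, pow_succ']
  exact Nat.mod_mod_of_dvd _ (Dvd.intro _ rfl)

theorem comp_zero {l k c : ℕ} (hc : c < 1024 ^ k) (h : k ≤ l) : comp l c = 0 := by
  unfold comp
  rw [Nat.div_eq_of_lt (lt_of_lt_of_le hc (Nat.pow_le_pow_right (by norm_num) h))]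

theorem big_zero : big 0 = false := by decide

/-- Indices of outer vertices. -/
def outers (m : ℕ) : Finset ℕ :=
  (Finset.range 10).filter fun o => m.testBit o = true ∧ CT.testBit (m ^^^ 2 ^ o) = true

theorem outers_nonempty : ∀ m < 1024, CT.testBit m = true → m ≠ 0 → (outers m).Nonempty := by
  have h : (List.range 1024).all (fun m => !CT.testBit m || (m == 0 ||
      (List.range 10).any fun o => m.testBit o && CT.testBit (m ^^^ 2 ^ o))) = true := by
    decide +kernel
  intro m hm ht h0
  rw [List.all_eq_true] at h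
  have := h m (List.mem_range.2 hm)
  rw [ht] at this
  simp only [Bool.not_true, Bool.false_or, Bool.or_eq_true, beq_iff_eq, h0, false_or,
    List.any_eq_true, Bool.and_eq_true] at this
  obtain ⟨o, ho, h1, h2⟩ := this
  exact ⟨o, Finset.mem_filter.2 ⟨Finset.mem_range.2 (List.mem_range.1 ho), h1, h2⟩⟩

theorem small_spec : ∀ m < 1024, big m = false → m = 0 ∨ ∃ o < 10, m = 2 ^ o := by
  have h : (List.range 1024).all (fun m => big m || m == 0 ||
      (List.range 10).any fun o => m == 2 ^ o) = true := by decide +kernel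
  intro m hm h0
  rw [List.all_eq_true] at h
  have := h m (List.mem_range.2 hm)
  rw [h0, Bool.false_or, Bool.or_eq_true, List.any_eq_true] at this
  rcases this with h1 | ⟨o, ho, h1⟩
  · left; simpa using h1
  · right; exact ⟨o, List.mem_range.1 ho, by simpa using h1⟩

/-- The least value of a bundle after the removal of an outer vertex. -/
noncomputable def w (v : Finset (Fin 10) → ℝ) (m : ℕ) : ℝ :=
  if h : (outers m).Nonempty then (outers m).inf' h (fun o => v (toSet (m ^^^ 2 ^ o))) else v ∅

theorem w_le {v : Finset (Fin 10) → ℝ} {m o : ℕ} (h : o ∈ outers m) :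
    w v m ≤ v (toSet (m ^^^ 2 ^ o)) := by
  unfold w
  rw [dif_pos ⟨o, h⟩]
  exact Finset.inf'_le _ h

theorem w_small {v : Finset (Fin 10) → ℝ} {m : ℕ} (hm : m < 1024) (h : big m = false) :
    w v m ≤ v ∅ := by
  rcases small_spec m hm h with rfl | ⟨o, ho, rfl⟩
  · unfold w
    rw [dif_neg]
    rintro ⟨o, ho⟩
    have := (Finset.mem_filter.1 ho).2.1
    simp at this
  · have : o ∈ outers (2 ^ o) := by
      refine Finset.mem_filter.2 ⟨Finset.mem_range.2 ho, by simp, ?_⟩
      rw [Nat.xor_self]
      decide +kernel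
    have h2 := w_le (v := v) this
    rw [Nat.xor_self, toSet_zero] at h2
    exact h2

/-- The bundle `a` minus some outer vertex is contained in `b`. -/
def sub1 (a b : ℕ) : Bool :=
  a == 0 || (List.range 10).any fun o =>
    a.testBit o && (CT.testBit (a ^^^ 2 ^ o) && ((a ^^^ 2 ^ o) &&& b == (a ^^^ 2 ^ o)))

theorem w_sub1 {v : Finset (Fin 10) → ℝ} (hv : ∀ S T, S ⊆ T → v S ≤ v T) {a b : ℕ}
    (h : sub1 a b = true) : w v a ≤ v (toSet b) := by
  unfold sub1 at h
  rw [Bool.or_eq_true, beq_iff_eq, List.any_eq_true] at h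
  rcases h with rfl | ⟨o, ho, h⟩
  · exact (w_small (by norm_num) big_zero).trans (hv _ _ (Finset.empty_subset _))
  · rw [Bool.and_eq_true, Bool.and_eq_true, beq_iff_eq] at h
    have hm : o ∈ outers a :=
      Finset.mem_filter.2 ⟨Finset.mem_range.2 (List.mem_range.1 ho), h.1, h.2.1⟩
    exact (w_le hm).trans (hv _ _ (toSet_mono h.2.2))

/-! ### Scores and labels -/

section

variable (v : ℕ → Finset (Fin 10) → ℝ)

/-- The score of the index `l` for the owner of `Q`. -/
noncomputable def score (l : ℕ) (Q : Multiset ℕ) : ℝ :=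
  (Q.map fun c => w (v (Q.card - 1)) (comp l c)).fold max 0

theorem le_fold {f : ℕ → ℝ} {Q : Multiset ℕ} {c : ℕ} (h : c ∈ Q) :
    f c ≤ (Q.map f).fold max 0 := by
  induction Q using Multiset.induction with
  | empty => simp at h
  | cons a Q ih =>
    rw [Multiset.map_cons, Multiset.fold_cons_left]
    rcases Multiset.mem_cons.1 h with rfl | h
    · exact le_max_left _ _
    · exact (ih h).trans (le_max_right _ _)

theorem fold_le {f : ℕ → ℝ} {Q : Multiset ℕ} {X : ℝ} (hX : 0 ≤ X) (h : ∀ c ∈ Q, f c ≤ X) :
    (Q.map f).fold max 0 ≤ X := by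
  induction Q using Multiset.induction with
  | empty => simpa using hX
  | cons a Q ih =>
    rw [Multiset.map_cons, Multiset.fold_cons_left]
    exact max_le (h a (Multiset.mem_cons_self a Q))
      (ih fun c hc => h c (Multiset.mem_cons_of_mem hc))

variable (n : ℕ)

/-- The index `l` is big somewhere in `Q`. -/
def IsCand (Q : Multiset ℕ) (l : ℕ) : Prop := l < n ∧ ∃ c ∈ Q, big (comp l c) = true

/-- The label: the least big index of maximal score. -/
noncomputable def lab (Q : Multiset ℕ) : ℕ :=
  sInf {l | IsCand n Q l ∧ ∀ m, IsCand n Q m → score v m Q ≤ score v l Q}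

theorem lab_spec {Q : Multiset ℕ} (h : ∃ l, IsCand n Q l) :
    IsCand n Q (lab v n Q) ∧ ∀ m, IsCand n Q m → score v m Q ≤ score v (lab v n Q) Q := by
  have hne : {l | IsCand n Q l ∧ ∀ m, IsCand n Q m → score v m Q ≤ score v l Q}.Nonempty := by
    obtain ⟨l, hl, hmax⟩ := Set.exists_max_image {l | IsCand n Q l} (fun l => score v l Q)
      ((Set.finite_lt_nat n).subset fun l hl => hl.1) h
    exact ⟨l, hl, hmax⟩
  exact Nat.sInf_mem hne

theorem lab_map {Q : Multiset ℕ} {k : ℕ}
    (h : ∀ c ∈ Q, c < 1024 ^ (k + 1) ∧ big (comp k c) = false) :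
    lab v n (Q.map fun c => c % 1024 ^ k) = lab v n Q := by
  have hc : ∀ l, IsCand n (Q.map fun c => c % 1024 ^ k) l ↔ IsCand n Q l := by
    intro l
    unfold IsCand
    apply and_congr_right
    intro _
    constructor
    · rintro ⟨c, hc, hb⟩
      obtain ⟨d, hd, rfl⟩ := Multiset.mem_map.1 hc
      refine ⟨d, hd, ?_⟩
      by_cases hl : l < k
      · rwa [comp_mod hl] at hb
      · rw [comp_zero (Nat.mod_lt _ (by positivity)) (Nat.not_lt.1 hl), big_zero] at hb
        exact absurd hb (by decide)
    · rintro ⟨d, hd, hb⟩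
      refine ⟨_, Multiset.mem_map_of_mem _ hd, ?_⟩
      by_cases hl : l < k
      · rwa [comp_mod hl]
      · exfalso
        rcases Nat.eq_or_lt_of_le (Nat.not_lt.1 hl) with hl | hl
        · subst hl
          rw [(h d hd).2] at hb
          exact absurd hb (by decide)
        · rw [comp_zero (h d hd).1 hl, big_zero] at hb
          exact absurd hb (by decide)
  have hlt : ∀ l, IsCand n Q l → l < k := by
    rintro l ⟨_, d, hd, hb⟩
    by_contra hl
    rcases Nat.eq_or_lt_of_le (Nat.not_lt.1 hl) with hl | hl
    · subst hl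
      rw [(h d hd).2] at hb
      exact absurd hb (by decide)
    · rw [comp_zero (h d hd).1 hl, big_zero] at hb
      exact absurd hb (by decide)
  have hs : ∀ l, l < k → score v l (Q.map fun c => c % 1024 ^ k) = score v l Q := by
    intro l hl
    unfold score
    rw [Multiset.card_map, Multiset.map_map]
    congr 1
    apply Multiset.map_congr rfl
    intro c _
    simp only [Function.comp, comp_mod hl]
  unfold lab
  congr 1
  ext l
  simp only [Set.mem_ofPred_eq, hc]
  constructor
  · rintro ⟨h1, h2⟩
    refine ⟨h1, fun m hm => ?_⟩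
    have := h2 m hm
    rwa [hs m (hlt m hm), hs l (hlt l h1)] at this
  · rintro ⟨h1, h2⟩
    refine ⟨h1, fun m hm => ?_⟩
    rw [hs m (hlt m hm), hs l (hlt l h1)]
    exact h2 m hm

end

/-! ### Lists of lists modulo two -/

def leL : List ℕ → List ℕ → Bool
  | [], _ => true
  | _ :: _, [] => false
  | a :: s, b :: t => if a < b then true else if a = b then leL s t else false

def mergeF : ℕ → List (List ℕ) → List (List ℕ) → List (List ℕ)
  | 0, a, b => a ++ b
  | _ + 1, [], b => b
  | _ + 1, a, [] => a
  | f + 1, x :: a, y :: b =>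
    if leL x y then x :: mergeF f a (y :: b) else y :: mergeF f (x :: a) b

theorem mergeF_perm : ∀ (f : ℕ) (a b : List (List ℕ)), (mergeF f a b).Perm (a ++ b)
  | 0, a, b => List.Perm.refl _
  | f + 1, [], b => by simp [mergeF]
  | f + 1, x :: a, [] => by simp [mergeF]
  | f + 1, x :: a, y :: b => by
    unfold mergeF
    split_ifs
    · exact (mergeF_perm f a (y :: b)).cons x
    · exact ((mergeF_perm f (x :: a) b).cons y).trans List.perm_middle.symm

def msort : ℕ → List (List ℕ) → List (List ℕ)
  | 0, l => l
  | f + 1, l => if l.length ≤ 1 then l else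
    mergeF l.length (msort f (l.take (l.length / 2))) (msort f (l.drop (l.length / 2)))

theorem msort_perm : ∀ (f : ℕ) (l : List (List ℕ)), (msort f l).Perm l
  | 0, l => List.Perm.refl _
  | f + 1, l => by
    unfold msort
    split_ifs
    · exact List.Perm.refl _
    · refine (mergeF_perm _ _ _).trans ?_
      refine ((msort_perm f _).append (msort_perm f _)).trans ?_
      rw [List.take_append_drop]

def cancel : List (List ℕ) → List (List ℕ)
  | [] => []
  | [a] => [a]
  | a :: b :: t => if a = b then cancel t else a :: cancel (b :: t)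

theorem sum_cancel (g : List ℕ → ZMod 2) : ∀ l : List (List ℕ),
    ((cancel l).map g).sum = (l.map g).sum
  | [] => rfl
  | [a] => rfl
  | a :: b :: t => by
    unfold cancel
    split_ifs with h
    · subst h
      rw [sum_cancel g t, List.map_cons, List.map_cons, List.sum_cons, List.sum_cons,
        ← add_assoc, CharTwo.add_self_eq_zero, zero_add]
    · rw [List.map_cons, List.sum_cons, sum_cancel g (b :: t), List.map_cons (l := b :: t),
        List.sum_cons]

theorem mem_cancel : ∀ (l : List (List ℕ)) (x : List ℕ), x ∈ cancel l → x ∈ l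
  | [], _, h => h
  | [a], _, h => h
  | a :: b :: t, x, h => by
    unfold cancel at h
    split_ifs at h with hab
    · exact List.mem_cons_of_mem _ (List.mem_cons_of_mem _ (mem_cancel t x h))
    · rcases List.mem_cons.1 h with rfl | h
      · exact List.mem_cons_self ..
      · exact List.mem_cons_of_mem _ (mem_cancel (b :: t) x h)

def ins (a : ℕ) : List ℕ → List ℕ
  | [] => [a]
  | b :: t => if a ≤ b then a :: b :: t else b :: ins a t

theorem ins_perm (a : ℕ) : ∀ l : List ℕ, (ins a l).Perm (a :: l)
  | [] => List.Perm.refl _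
  | b :: t => by
    unfold ins
    split_ifs
    · exact List.Perm.refl _
    · exact ((ins_perm a t).cons b).trans (List.Perm.swap a b t)

def isort : List ℕ → List ℕ
  | [] => []
  | a :: t => ins a (isort t)

theorem isort_perm : ∀ l : List ℕ, (isort l).Perm l
  | [] => List.Perm.refl _
  | a :: t => (ins_perm a (isort t)).trans ((isort_perm t).cons a)

/-! ### The checker -/

def faces (M : List ℕ) : List (List ℕ) := M.map fun x => M.erase x

/-- No index below `k` is small on `Q`. -/
def keep (k : ℕ) (Q : List ℕ) : Bool := (List.range k).all fun l => Q.any fun c => big (comp l c)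

def okS (k : ℕ) (M : List ℕ) : Bool :=
  M.length == k && M.all fun c => decide (c < 1024 ^ k) &&
    (List.range k).any fun l => big (comp l c)

def run : ℕ → List (List ℕ) → Bool
  | 0, L => L.length % 2 == 1
  | k + 1, L => L.all (okS (k + 1)) &&
    ((cancel (msort 40 (L.flatMap faces))).all
      (fun Q => !keep k Q || Q.all fun c => !big (comp k c)) &&
    run k (cancel (msort 40 (((cancel (msort 40 (L.flatMap faces))).filter (keep k)).map
      fun Q => isort (Q.map fun c => c % 1024 ^ k)))))

section

variable (v : ℕ → Finset (Fin 10) → ℝ) (n : ℕ)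

noncomputable def tot (k : ℕ) (L : List (List ℕ)) : ZMod 2 :=
  (L.map fun M : List ℕ => G (lab v n) k (M : Multiset ℕ) (Finset.range k)).sum

theorem okS_spec {k : ℕ} {M : List ℕ} (h : okS k M = true) :
    M.length = k ∧ ∀ c ∈ M, c < 1024 ^ k ∧ ∃ l < k, big (comp l c) = true := by
  unfold okS at h
  rw [Bool.and_eq_true, beq_iff_eq, List.all_eq_true] at h
  refine ⟨h.1, fun c hc => ?_⟩
  have := h.2 c hc
  rw [Bool.and_eq_true, decide_eq_true_iff, List.any_eq_true] at this
  obtain ⟨h1, l, hl, h2⟩ := this
  exact ⟨h1, l, List.mem_range.1 hl, h2⟩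

theorem lab_lt {k : ℕ} (hk : k ≤ n) {M : List ℕ} (h : okS k M = true) (N : Multiset ℕ)
    (hN : N ≤ (M : Multiset ℕ)) (hN0 : N ≠ 0) : lab v n N ∈ Finset.range k := by
  obtain ⟨_, h2⟩ := okS_spec h
  obtain ⟨c, hc⟩ := Multiset.exists_mem_of_ne_zero hN0
  have hcM : c ∈ M := Multiset.mem_coe.1 (Multiset.mem_of_le hN hc)
  obtain ⟨_, l, hl, hb⟩ := h2 c hcM
  obtain ⟨⟨_, d, hd, hbd⟩, _⟩ := lab_spec v n (Q := N) ⟨l, lt_of_lt_of_le hl hk, c, hc, hb⟩
  rw [Finset.mem_range]
  by_contra hlt
  have hdM : d ∈ M := Multiset.mem_coe.1 (Multiset.mem_of_le hN hd)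
  rw [comp_zero (h2 d hdM).1 (Nat.not_lt.1 hlt), big_zero] at hbd
  exact absurd hbd (by decide)

theorem tot_faces {k : ℕ} (hk : k + 1 ≤ n) {L : List (List ℕ)}
    (hL : ∀ M ∈ L, okS (k + 1) M = true) :
    tot v n (k + 1) L =
      ((L.flatMap faces).map fun Q : List ℕ => G (lab v n) k (Q : Multiset ℕ) (Finset.range k)).sum := by
  unfold tot
  induction L with
  | nil => rfl
  | cons M L ih =>
    rw [List.map_cons, List.sum_cons, ih fun N hN => hL N (List.mem_cons_of_mem _ hN),
      List.flatMap_cons, List.map_append, List.sum_append]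
    congr 1
    have hM := hL M (List.mem_cons_self ..)
    have h1 := key (lab v n) (Finset.range (k + 1)) k (M : Multiset ℕ) (Finset.range k)
      (by rw [Multiset.coe_card]; exact (okS_spec hM).1)
      (by intro x; simp only [Finset.mem_range]; omega) (Finset.card_range k)
      (lab_lt v n hk hM)
    have h2 : Finset.range (k + 1) \ Finset.range k = {k} := by
      ext x
      simp only [Finset.mem_sdiff, Finset.mem_range, Finset.mem_singleton]
      omega
    rw [h2, Finset.sum_singleton, ← Finset.range_add_one] at h1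
    rw [← h1]
    unfold faces
    rw [Multiset.map_coe, Multiset.sum_coe, List.map_map]
    rfl

theorem run_sound : ∀ (k : ℕ), k ≤ n → ∀ L : List (List ℕ), run k L = true → tot v n k L ≠ 0
  | 0, _, L, h => by
    unfold run at h
    rw [beq_iff_eq] at h
    have : tot v n 0 L = (L.length : ZMod 2) := by
      unfold tot
      induction L with
      | nil => simp
      | cons a L ih =>
        rw [List.map_cons, List.sum_cons]
        have h1 : G (lab v n) 0 (a : Multiset ℕ) (Finset.range 0) = 1 := by
          unfold G; simp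
        rw [h1]
        have h2 : (List.map (fun M : List ℕ => G (lab v n) 0 (M : Multiset ℕ) (Finset.range 0))
            L).sum = (L.length : ZMod 2) := by
          clear h ih
          induction L with
          | nil => simp
          | cons b L ih =>
            rw [List.map_cons, List.sum_cons, ih]
            have h1 : G (lab v n) 0 (b : Multiset ℕ) (Finset.range 0) = 1 := by
              unfold G; simp
            rw [h1, List.length_cons]
            push_cast
            ring
        rw [h2, List.length_cons]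
        push_cast
        ring
    rw [this]
    intro h0
    rw [ZMod.natCast_eq_zero_iff] at h0
    omega
  | k + 1, hk, L, h => by
    unfold run at h
    rw [Bool.and_eq_true, Bool.and_eq_true, List.all_eq_true, List.all_eq_true] at h
    obtain ⟨hL, hS, hR⟩ := h
    have hrec := run_sound k (by omega) _ hR
    rw [tot_faces v n hk hL]
    set fs := cancel (msort 40 (L.flatMap faces)) with hfs
    have e1 : ((L.flatMap faces).map fun Q : List ℕ => G (lab v n) k (Q : Multiset ℕ)
        (Finset.range k)).sum =
        (fs.map fun Q : List ℕ => G (lab v n) k (Q : Multiset ℕ) (Finset.range k)).sum := by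
      rw [hfs, sum_cancel]
      exact (List.Perm.map _ (msort_perm 40 _)).symm.sum_eq
    -- facts on the faces
    have hF : ∀ Q ∈ fs, Q.length = k ∧ ∀ c ∈ Q, c < 1024 ^ (k + 1) ∧
        ∃ l < k + 1, big (comp l c) = true := by
      intro Q hQ
      have h1 := (msort_perm 40 _).mem_iff.1 (mem_cancel _ _ hQ)
      rw [List.mem_flatMap] at h1
      obtain ⟨M, hM, hQM⟩ := h1
      unfold faces at hQM
      obtain ⟨x, hx, rfl⟩ := List.mem_map.1 hQM
      obtain ⟨h2, h3⟩ := okS_spec (hL M hM)
      refine ⟨by rw [List.length_erase_of_mem hx, h2]; rfl, fun c hc => ?_⟩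
      exact h3 c (List.mem_of_mem_erase hc)
    have e2 : (fs.map fun Q : List ℕ => G (lab v n) k (Q : Multiset ℕ) (Finset.range k)).sum =
        ((fs.filter (keep k)).map fun Q : List ℕ => G (lab v n) k (Q : Multiset ℕ)
          (Finset.range k)).sum := by
      clear_value fs
      clear e1 hS hR hrec hfs
      induction fs with
      | nil => rfl
      | cons Q fs ih =>
        have ih' := ih fun Q' hQ' => hF Q' (List.mem_cons_of_mem _ hQ')
        rw [List.map_cons, List.sum_cons, List.filter_cons]
        split_ifs with hkp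
        · rw [List.map_cons, List.sum_cons, ih']
        · rw [ih']
          have hkp' : ∃ j < k, ∀ c ∈ Q, big (comp j c) = false := by
            unfold keep at hkp
            rw [List.all_eq_true] at hkp
            push Not at hkp
            obtain ⟨j, hj, hb⟩ := hkp
            refine ⟨j, List.mem_range.1 hj, fun c hc => ?_⟩
            rw [Bool.eq_false_iff]
            intro hb'
            exact hb (List.any_eq_true.2 ⟨c, hc, hb'⟩)
          obtain ⟨j, hj, hsm⟩ := hkp'
          obtain ⟨hQ1, hQ2⟩ := hF Q (List.mem_cons_self ..)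
          rw [G_small (lab v n) j k (Q : Multiset ℕ) (Finset.range k)
            (by rw [Multiset.coe_card]; exact hQ1) (Finset.mem_range.2 hj), zero_add]
          intro N hN hN0 hlab
          obtain ⟨c, hc⟩ := Multiset.exists_mem_of_ne_zero hN0
          obtain ⟨_, l, hl, hb⟩ := hQ2 c (Multiset.mem_coe.1 (Multiset.mem_of_le hN hc))
          obtain ⟨⟨_, d, hd, hbd⟩, _⟩ := lab_spec v n (Q := N)
            ⟨l, by omega, c, hc, hb⟩
          rw [hlab, hsm d (Multiset.mem_coe.1 (Multiset.mem_of_le hN hd))] at hbd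
          exact absurd hbd (by decide)
    have e3 : ((fs.filter (keep k)).map fun Q : List ℕ => G (lab v n) k (Q : Multiset ℕ)
          (Finset.range k)).sum =
        (((fs.filter (keep k)).map fun Q => isort (Q.map fun c => c % 1024 ^ k)).map
          fun Q : List ℕ => G (lab v n) k (Q : Multiset ℕ) (Finset.range k)).sum := by
      rw [List.map_map]
      congr 1
      apply List.map_congr_left
      intro Q hQ
      obtain ⟨hQ0, hkp⟩ := List.mem_filter.1 hQ
      have h4 := hS Q hQ0
      rw [hkp, Bool.not_true, Bool.false_or, List.all_eq_true] at h4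
      obtain ⟨hQ1, hQ2⟩ := hF Q hQ0
      simp only [Function.comp]
      have h5 : ((isort (Q.map fun c => c % 1024 ^ k) : List ℕ) : Multiset ℕ) =
          (Q : Multiset ℕ).map fun c => c % 1024 ^ k := by
        rw [Multiset.map_coe]
        exact Multiset.coe_eq_coe.2 (isort_perm _)
      rw [h5, G_map (lab v n) (fun c => c % 1024 ^ k) k (Q : Multiset ℕ) _
        (by rw [Multiset.coe_card]; exact hQ1)]
      intro N hN _
      apply lab_map
      intro c hc
      have hcQ : c ∈ Q := Multiset.mem_coe.1 (Multiset.mem_of_le hN hc)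
      refine ⟨(hQ2 c hcQ).1, ?_⟩
      simpa using h4 c hcQ
    rw [e1, e2, e3]
    unfold tot at hrec
    rw [sum_cancel, (List.Perm.map _ (msort_perm 40 _)).sum_eq] at hrec
    exact hrec

end

/-! ### Soundness -/

def okPt (n c : ℕ) : Bool :=
  (List.range n).all (fun l => CT.testBit (comp l c)) &&
  ((List.range n).all (fun l => (List.range n).all fun m => l == m || comp l c &&& comp m c == 0) &&
  (List.range 10).all fun x => (List.range n).any fun l => (comp l c).testBit x)

def okCmp (n a b : ℕ) : Bool := (List.range n).all fun l => sub1 (comp l a) (comp l b)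

def checkAll (n : ℕ) (L : List (List ℕ)) : Bool :=
  (L.all fun M => M.all (okPt n) && M.all fun a => M.all fun b => okCmp n a b) && run n L

theorem toSet_disjoint {a b : ℕ} (h : a &&& b = 0) : Disjoint (toSet a) (toSet b) := by
  rw [Finset.disjoint_left]
  intro x hx hy
  rw [mem_toSet] at hx hy
  have := congrArg (fun y => y.testBit x) h
  simp only [Nat.testBit_and, Nat.zero_testBit, hx, hy] at this
  exact absurd this (by decide)

theorem check_sound {n : ℕ} (hn : 1 ≤ n) {L : List (List ℕ)} (h : checkAll n L = true)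
    (v : Fin n → Finset (Fin 10) → ℝ) (hv : IsMonotoneProfile v) :
    ∃ A : Fin n → Finset (Fin 10), IsAllocation A ∧ IsConnectedAllocation splitGraph A ∧
      IsEF1Outer splitGraph v A := by
  obtain ⟨m, rfl⟩ : ∃ m, n = m + 1 := ⟨n - 1, by omega⟩
  let v' : ℕ → Finset (Fin 10) → ℝ := fun i => if h : i < m + 1 then v ⟨i, h⟩ else fun _ => 0
  unfold checkAll at h
  rw [Bool.and_eq_true, List.all_eq_true] at h
  obtain ⟨hL, hR⟩ := h
  have htot := run_sound v' (m + 1) (m + 1) le_rfl L hR
  obtain ⟨M, hM, hG⟩ : ∃ M ∈ L, G (lab v' (m + 1)) (m + 1) (M : Multiset ℕ)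
      (Finset.range (m + 1)) ≠ 0 := by
    by_contra hcon
    push Not at hcon
    apply htot
    unfold tot
    rw [List.map_congr_left hcon]
    simp
  have hMok : okS (m + 1) M = true := by
    unfold run at hR
    rw [Bool.and_eq_true, List.all_eq_true] at hR
    exact hR.1 M hM
  obtain ⟨hMlen, hMpt⟩ := okS_spec hMok
  obtain ⟨F, hF, σ, hσ1, hσ2, hσ3⟩ := exists_flag (lab v' (m + 1)) m (M : Multiset ℕ)
    (Finset.range (m + 1)) (by rw [Multiset.coe_card]; exact hMlen) hG
  have hLM := hL M hM
  rw [Bool.and_eq_true, List.all_eq_true, List.all_eq_true] at hLM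
  have hFM : F ∈ M := Multiset.mem_coe.1 hF
  have hFpt := hLM.1 F hFM
  unfold okPt at hFpt
  rw [Bool.and_eq_true, Bool.and_eq_true, List.all_eq_true, List.all_eq_true,
    List.all_eq_true] at hFpt
  obtain ⟨hc1, hc2, hc3⟩ := hFpt
  have hσlt : ∀ i < m + 1, σ i < m + 1 := fun i hi => Finset.mem_range.1 (hσ1 i hi)
  -- surjectivity of the labels
  have hsurj : ∀ l < m + 1, ∃ i < m + 1, σ i = l := by
    have hinj : Function.Injective (fun i : Fin (m + 1) => (⟨σ i, hσlt i i.2⟩ : Fin (m + 1))) := by
      intro i j hij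
      exact Fin.ext (hσ2 i i.2 j j.2 (by simpa using hij))
    have hs := Finite.surjective_of_injective hinj
    intro l hl
    obtain ⟨i, hi⟩ := hs ⟨l, hl⟩
    exact ⟨i, i.2, by simpa using congrArg Fin.val hi⟩
  refine ⟨fun i => toSet (comp (σ i) F), ⟨fun i j hij => ?_, fun x => ?_⟩, fun i hi => ?_,
    fun i j => ?_⟩
  · apply toSet_disjoint
    have h1 := hc2 (σ i) (List.mem_range.2 (hσlt i i.2))
    rw [List.all_eq_true] at h1
    have h2 := h1 (σ j) (List.mem_range.2 (hσlt j j.2))
    rw [Bool.or_eq_true, beq_iff_eq, beq_iff_eq] at h2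
    rcases h2 with h2 | h2
    · exact absurd (Fin.ext (hσ2 i i.2 j j.2 h2)) hij
    · exact h2
  · have h1 := hc3 x (List.mem_range.2 x.2)
    rw [List.any_eq_true] at h1
    obtain ⟨l, hl, hlx⟩ := h1
    obtain ⟨i, hi, hil⟩ := hsurj l (List.mem_range.1 hl)
    exact ⟨⟨i, hi⟩, mem_toSet.2 (by simpa [hil] using hlx)⟩
  · apply CT_conn (comp_lt _ _) (hc1 (σ i) (List.mem_range.2 (hσlt i i.2)))
    intro h0
    have hi' : (toSet (comp (σ i) F)).Nonempty := hi
    rw [h0, toSet_zero] at hi'
    exact Finset.not_nonempty_empty hi'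
  · -- the EF1 condition
    have hvi : v' i = v i := by
      simp only [v', i.2, dif_pos]
    have hmono : ∀ S T, S ⊆ T → v i S ≤ v i T := (hv i).2
    obtain ⟨Q, hQM, hQc, hFQ, hQl⟩ := hσ3 i i.2
    have hQ1 : Q.card - 1 = (i : ℕ) := by omega
    have hcand : ∃ l, IsCand (m + 1) Q l := by
      obtain ⟨_, l, hl, hb⟩ := hMpt F hFM
      exact ⟨l, hl, F, hFQ, hb⟩
    obtain ⟨_, hmax⟩ := lab_spec v' (m + 1) hcand
    rw [hQl] at hmax
    have hX : score v' (σ i) Q ≤ v i (toSet (comp (σ i) F)) := by
      unfold score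
      apply fold_le ((hv i).1 _)
      intro c hc
      rw [hQ1, hvi]
      have hcM : c ∈ M := Multiset.mem_coe.1 (Multiset.mem_of_le hQM hc)
      have h1 := hLM.2 c hcM
      rw [List.all_eq_true] at h1
      have h2 := h1 F hFM
      unfold okCmp at h2
      rw [List.all_eq_true] at h2
      exact w_sub1 hmono (h2 (σ i) (List.mem_range.2 (hσlt i i.2)))
    have hw : w (v i) (comp (σ j) F) ≤ v i (toSet (comp (σ i) F)) := by
      by_cases hb : big (comp (σ j) F) = true
      · have h1 := hmax (σ j) ⟨hσlt j j.2, F, hFQ, hb⟩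
        refine le_trans ?_ (h1.trans hX)
        unfold score
        have h2 := le_fold (f := fun c => w (v' (Q.card - 1)) (comp (σ j) c)) hFQ
        simp only [hQ1, hvi] at h2 ⊢
        exact h2
      · rw [Bool.not_eq_true] at hb
        exact (w_small (comp_lt _ _) hb).trans (hmono _ _ (Finset.empty_subset _))
    by_cases h0 : comp (σ j) F = 0
    · left
      show v i (toSet (comp (σ j) F)) ≤ v i (toSet (comp (σ i) F))
      rw [h0, toSet_zero]
      exact hmono _ _ (Finset.empty_subset _)
    · right
      have hct := hc1 (σ j) (List.mem_range.2 (hσlt j j.2))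
      have hne := outers_nonempty _ (comp_lt (σ j) F) hct h0
      unfold w at hw
      rw [dif_pos hne] at hw
      obtain ⟨o, ho, hoe⟩ := Finset.exists_mem_eq_inf' hne
        (fun o => v i (toSet (comp (σ j) F ^^^ 2 ^ o)))
      rw [hoe] at hw
      obtain ⟨ho1, ho2, ho3⟩ := Finset.mem_filter.1 ho
      have ho10 : o < 10 := Finset.mem_range.1 ho1
      refine ⟨⟨o, ho10⟩, ⟨mem_toSet.2 ho2, ?_⟩, ?_⟩
      · show (toSet (comp (σ j) F)).erase ⟨o, ho10⟩ = ∅ ∨
          (splitGraph.induce (((toSet (comp (σ j) F)).erase ⟨o, ho10⟩ : Finset (Fin 10)) :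
            Set (Fin 10))).Connected
        rw [← toSet_xor ho10 ho2]
        by_cases h00 : comp (σ j) F ^^^ 2 ^ o = 0
        · left; rw [h00, toSet_zero]
        · right
          exact CT_conn (xor_lt (comp_lt _ _) ho10) ho3 h00
      · show v i ((toSet (comp (σ j) F)).erase ⟨o, ho10⟩) ≤ v i (toSet (comp (σ i) F))
        rw [← toSet_xor ho10 ho2]
        exact hw

end Pool.Agent.Helper99K9.EFM
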