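import Pool.Agent.Helper99K9.EFM.Pick

/-!
One agent, and at least ten agents.
-/

namespace Pool.Agent.Helper99K9.EFM

open Finset
open Pool.Agent.V11103.EF (Traceable IsAllocation IsConnectedAllocation IsOuter IsEF1Outer)

theorem large {n : ℕ} (hn : 10 ≤ n) (v : Fin n → Finset (Fin 10) → ℝ)
    (hv : IsMonotoneProfile v) :
    ∃ A : Fin n → Finset (Fin 10), IsAllocation A ∧ IsConnectedAllocation splitGraph A ∧
      IsEF1Outer splitGraph v A := by
  have hsing : ∀ x : Fin 10, (univ.filter fun y : Fin 10 => (y : ℕ) = x) = {x} := by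
    intro x
    ext y
    simp only [Finset.mem_filter, Finset.mem_univ, true_and, Finset.mem_singleton]
    exact Fin.ext_iff.symm
  refine ⟨fun i => univ.filter fun x : Fin 10 => (x : ℕ) = i, ⟨fun i j hij => ?_, fun x => ?_⟩,
    fun i hi => ?_, fun i j => ?_⟩
  · rw [Finset.disjoint_left]
    intro x hx hy
    rw [Finset.mem_filter] at hx hy
    exact hij (Fin.ext (hx.2.symm.trans hy.2))
  · exact ⟨⟨x, by omega⟩, by simp⟩
  · obtain ⟨x, hx⟩ := hi
    have hx' : (x : ℕ) = i := by simpa using hx
    have h := conn_single x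
    rw [← hsing x, hx'] at h
    exact h
  · by_cases hj : (j : ℕ) < 10
    · right
      have h := hsing ⟨j, hj⟩
      simp only at h
      refine ⟨⟨j, hj⟩, ⟨by simp, Or.inl ?_⟩, ?_⟩
      · simp only [h, Finset.erase_singleton]
      · simp only [h, Finset.erase_singleton]
        exact (hv i).2 _ _ (Finset.empty_subset _)
    · left
      have : (univ.filter fun y : Fin 10 => (y : ℕ) = j) = ∅ := by
        ext y
        simp only [Finset.mem_filter, Finset.mem_univ, true_and, Finset.notMem_empty, iff_false]
        omega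
      simp only [this]
      exact (hv i).2 _ _ (Finset.empty_subset _)

theorem one (v : Fin 1 → Finset (Fin 10) → ℝ) :
    ∃ A : Fin 1 → Finset (Fin 10), IsAllocation A ∧ IsConnectedAllocation splitGraph A ∧
      IsEF1Outer splitGraph v A := by
  have huniv : toSet 1023 = univ := by decide +kernel
  have hc := CT_conn (m := 1023) (by norm_num) (by decide +kernel) (by norm_num)
  rw [huniv] at hc
  refine ⟨fun _ => univ, ⟨fun i j hij => absurd (Subsingleton.elim i j) hij, fun x => ⟨0, mem_univ x⟩⟩,
    fun _ _ => hc, fun i j => Or.inl ?_⟩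
  rw [Subsingleton.elim i j]

end Pool.Agent.Helper99K9.EFM
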