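import Pool.Agent.Helper99K9.EFM.Base

/-!
At least five agents: an allocation from a perfect matching between the clique and the
independent set, by local improvements.
-/

namespace Pool.Agent.Helper99K9.EFM

open Finset
open Pool.Agent.V11103.EF (Traceable IsAllocation IsConnectedAllocation IsOuter IsEF1Outer)

/-- independent vertex number `k` -/
def lo (k : Fin 5) : Fin 10 := ⟨k, by omega⟩
/-- clique vertex number `k` -/
def hi (k : Fin 5) : Fin 10 := ⟨k + 5, by omega⟩
/-- matched pair number `k` -/
def P (k : Fin 5) : Finset (Fin 10) := {lo k, hi k}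

theorem sub_P : ∀ k : Fin 5, ∀ S ∈ (P k).powerset, S = ∅ ∨ S = {lo k} ∨ S = {hi k} ∨ S = P k := by
  decide +kernel
theorem P_inj : ∀ k k' : Fin 5, P k ⊆ P k' → k = k' := by decide
theorem P_disj : ∀ k k' : Fin 5, k ≠ k' → Disjoint (P k) (P k') := by decide
theorem P_cover : ∀ x : Fin 10, ∃ k : Fin 5, x ∈ P k := by decide
theorem P_card : ∀ k : Fin 5, (P k).card = 2 := by decide
theorem P_ne_single : ∀ (k : Fin 5) (x : Fin 10), P k ≠ {x} := by decide
theorem lo_mem (k : Fin 5) : lo k ∈ P k := by simp [P]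
theorem hi_mem (k : Fin 5) : hi k ∈ P k := by simp [P]
theorem lo_ne_hi : ∀ k : Fin 5, lo k ≠ hi k := by decide

theorem conn_single (x : Fin 10) :
    (splitGraph.induce (({x} : Finset (Fin 10)) : Set (Fin 10))).Connected := by
  rw [Finset.coe_singleton, SimpleGraph.induce_singleton_eq_top]
  exact SimpleGraph.connected_top

theorem conn_P (k : Fin 5) : (splitGraph.induce ((P k : Finset (Fin 10)) : Set (Fin 10))).Connected := by
  have h : ∀ k : Fin 5, CT.testBit (2 ^ (k : ℕ) + 2 ^ ((k : ℕ) + 5)) = true ∧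
      2 ^ (k : ℕ) + 2 ^ ((k : ℕ) + 5) < 1024 ∧ toSet (2 ^ (k : ℕ) + 2 ^ ((k : ℕ) + 5)) = P k := by
    decide +kernel
  have h' := CT_conn (h k).2.1 (h k).1 (by positivity)
  rw [(h k).2.2] at h'
  exact h'

theorem conn_insert_P (j k : Fin 5) (hjk : j ≠ k) :
    (splitGraph.induce ((insert (hi j) (P k) : Finset (Fin 10)) : Set (Fin 10))).Connected := by
  have h : ∀ j k : Fin 5, j ≠ k → CT.testBit (2 ^ ((j : ℕ) + 5) + 2 ^ (k : ℕ) + 2 ^ ((k : ℕ) + 5))
      = true ∧ 2 ^ ((j : ℕ) + 5) + 2 ^ (k : ℕ) + 2 ^ ((k : ℕ) + 5) < 1024 ∧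
      toSet (2 ^ ((j : ℕ) + 5) + 2 ^ (k : ℕ) + 2 ^ ((k : ℕ) + 5)) = insert (hi j) (P k) := by
    decide +kernel
  have h' := CT_conn (h j k hjk).2.1 (h j k hjk).1 (by positivity)
  rw [(h j k hjk).2.2] at h'
  exact h'

section

variable {n : ℕ}

/-- Admissible partial allocations. -/
def Valid (v : Fin n → Finset (Fin 10) → ℝ) (A : Fin n → Finset (Fin 10)) : Prop :=
  (∀ i, (∃ x, A i = {x}) ∨ ∃ k, A i = P k) ∧ (∀ i j, i ≠ j → Disjoint (A i) (A j)) ∧
  ∀ i k, A i = P k → ∀ j, v j {lo k} ≤ v j (A j) ∨ v j {hi k} ≤ v j (A j)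

theorem improve {v : Fin n → Finset (Fin 10) → ℝ} {A : Fin n → Finset (Fin 10)}
    (hA : Valid v A) (hmax : ∀ B, Valid v B → ∑ i, v i (B i) ≤ ∑ i, v i (A i))
    (i : Fin n) (S : Finset (Fin 10)) (hS : (∃ x, S = {x}) ∨ ∃ k, S = P k)
    (hd : ∀ j, j ≠ i → Disjoint S (A j))
    (h3 : ∀ k, S = P k → ∀ j, v j {lo k} ≤ v j (A j) ∨ v j {hi k} ≤ v j (A j)) :
    v i S ≤ v i (A i) := by
  by_contra hlt
  push Not at hlt
  have hle : ∀ j, v j (A j) ≤ v j (Function.update A i S j) := by
    intro j
    by_cases hj : j = i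
    · subst hj; rw [Function.update_self]; exact hlt.le
    · rw [Function.update_of_ne hj]
  have hval : Valid v (Function.update A i S) := by
    refine ⟨fun j => ?_, fun j l hjl => ?_, fun j k hk l => ?_⟩
    · by_cases hj : j = i
      · subst hj; rw [Function.update_self]; exact hS
      · rw [Function.update_of_ne hj]; exact hA.1 j
    · by_cases hj : j = i
      · subst hj
        rw [Function.update_self, Function.update_of_ne (Ne.symm hjl)]
        exact hd l (Ne.symm hjl)
      · rw [Function.update_of_ne hj]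
        by_cases hl : l = i
        · subst hl
          rw [Function.update_self]
          exact (hd j hj).symm
        · rw [Function.update_of_ne hl]
          exact hA.2.1 j l hjl
    · have hold : v l {lo k} ≤ v l (A l) ∨ v l {hi k} ≤ v l (A l) := by
        by_cases hj : j = i
        · subst hj
          rw [Function.update_self] at hk
          exact h3 k hk l
        · rw [Function.update_of_ne hj] at hk
          exact hA.2.2 j k hk l
      rcases hold with h | h
      · exact Or.inl (h.trans (hle l))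
      · exact Or.inr (h.trans (hle l))
  have h1 := hmax _ hval
  have h2 : ∑ j, v j (A j) < ∑ j, v j (Function.update A i S j) := by
    apply Finset.sum_lt_sum (fun j _ => hle j)
    exact ⟨i, mem_univ _, by rw [Function.update_self]; exact hlt⟩
  linarith

theorem exists_opt (hn : n ≤ 10) (v : Fin n → Finset (Fin 10) → ℝ) :
    ∃ A, Valid v A ∧ ∀ B, Valid v B → ∑ i, v i (B i) ≤ ∑ i, v i (A i) := by
  have hne : {A | Valid v A}.Nonempty := by
    refine ⟨fun i => {⟨i, by omega⟩}, fun i => Or.inl ⟨_, rfl⟩, fun i j hij => ?_, fun i k hk => ?_⟩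
    · rw [Finset.disjoint_singleton]
      intro h
      exact hij (Fin.ext (by simpa using h))
    · exact absurd hk.symm (P_ne_single _ _)
  obtain ⟨A, hA, hmax⟩ := Set.exists_max_image {A | Valid v A} (fun A => ∑ i, v i (A i))
    (Set.toFinite _) hne
  exact ⟨A, hA, fun B hB => hmax B hB⟩

theorem pick (h5 : 5 ≤ n) (hn : n ≤ 10) (v : Fin n → Finset (Fin 10) → ℝ)
    (hv : IsMonotoneProfile v) :
    ∃ A : Fin n → Finset (Fin 10), IsAllocation A ∧ IsConnectedAllocation splitGraph A ∧
      IsEF1Outer splitGraph v A := by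
  obtain ⟨A, hA, hmax⟩ := exists_opt hn v
  have hmono : ∀ i S T, S ⊆ T → v i S ≤ v i T := fun i => (hv i).2
  -- unheld vertices are not preferred
  have S1 : ∀ x, (∀ j, x ∉ A j) → ∀ i, v i {x} ≤ v i (A i) := by
    intro x hx i
    refine improve hA hmax i {x} (Or.inl ⟨x, rfl⟩) (fun j _ => ?_) (fun k hk => ?_)
    · rw [Finset.disjoint_singleton_left]; exact hx j
    · exact absurd hk.symm (P_ne_single _ _)
  have S2 : ∀ k, (∀ x ∈ P k, ∀ j, x ∉ A j) → ∀ i, v i (P k) ≤ v i (A i) := by
    intro k hk i
    refine improve hA hmax i (P k) (Or.inr ⟨k, rfl⟩) (fun j _ => ?_) (fun k' hk' j => ?_)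
    · rw [Finset.disjoint_left]; exact fun x hx => hk x hx j
    · have : k = k' := P_inj _ _ (by rw [hk'])
      subst this
      exact Or.inl (S1 _ (hk _ (lo_mem k)) j)
  have hAne : ∀ i, (A i).Nonempty := by
    intro i
    rcases hA.1 i with ⟨x, hx⟩ | ⟨k, hk⟩
    · rw [hx]; exact Finset.singleton_nonempty x
    · rw [hk]; exact ⟨lo k, lo_mem k⟩
  -- fibres
  have hq : ∀ i, ∃ k, A i ⊆ P k := by
    intro i
    rcases hA.1 i with ⟨x, hx⟩ | ⟨k, hk⟩
    · obtain ⟨k, hk⟩ := P_cover x
      exact ⟨k, by rw [hx]; simpa using hk⟩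
    · exact ⟨k, by rw [hk]⟩
  choose q hq using hq
  have hcases : ∀ i, A i = {lo (q i)} ∨ A i = {hi (q i)} ∨ A i = P (q i) := by
    intro i
    rcases sub_P (q i) (A i) (Finset.mem_powerset.2 (hq i)) with h | h | h | h
    · exact absurd h (hAne i).ne_empty
    · exact Or.inl h
    · exact Or.inr (Or.inl h)
    · exact Or.inr (Or.inr h)
  -- the unheld part of a pair
  let C : Fin 5 → Finset (Fin 10) := fun k => (P k).filter fun x => ∀ j, x ∉ A j
  have hCsub : ∀ k, C k ⊆ P k := fun k => Finset.filter_subset _ _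
  have hCun : ∀ k x, x ∈ C k → ∀ j, x ∉ A j := fun k x hx => (Finset.mem_filter.1 hx).2
  have hCval : ∀ k, (C k).Nonempty → (∀ i, v i (C k) ≤ v i (A i)) ∧
      (splitGraph.induce ((C k : Finset (Fin 10)) : Set (Fin 10))).Connected := by
    intro k hk
    rcases sub_P k (C k) (Finset.mem_powerset.2 (hCsub k)) with h | h | h | h
    · exact absurd h hk.ne_empty
    · refine ⟨fun i => ?_, ?_⟩
      · have := hCun k (lo k) (by rw [h]; simp)
        rw [h]; exact S1 _ this i
      · rw [h]; exact conn_single _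
    · refine ⟨fun i => ?_, ?_⟩
      · have := hCun k (hi k) (by rw [h]; simp)
        rw [h]; exact S1 _ this i
      · rw [h]; exact conn_single _
    · refine ⟨fun i => ?_, ?_⟩
      · have : ∀ x ∈ P k, ∀ j, x ∉ A j := fun x hx => hCun k x (by rw [h]; exact hx)
        rw [h]; exact S2 k this i
      · rw [h]; exact conn_P k
  -- two agents in the same fibre
  have htwo : ∀ i j, i ≠ j → q i = q j → C (q i) = ∅ ∧
      (A i = {hi (q i)} ∨ A j = {hi (q i)}) := by
    intro i j hij hqq
    have hdis := hA.2.1 i j hij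
    have hmem : ∀ x, x ∈ A i → x ∈ A j → False := fun x h1 h2 =>
      (Finset.disjoint_left.1 hdis) h1 h2
    have hi' := hcases i
    have hj' := hcases j
    rw [← hqq] at hj'
    have hC : ∀ (hlo : ∃ l, lo (q i) ∈ A l) (hhi : ∃ l, hi (q i) ∈ A l), C (q i) = ∅ := by
      rintro ⟨l1, hl1⟩ ⟨l2, hl2⟩
      rw [Finset.eq_empty_iff_forall_notMem]
      intro x hx
      have h1 := hCsub _ hx
      have h2 := hCun _ x hx
      simp only [P, Finset.mem_insert, Finset.mem_singleton] at h1
      rcases h1 with h1 | h1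
      · subst h1; exact h2 l1 hl1
      · subst h1; exact h2 l2 hl2
    rcases hi' with h1 | h1 | h1 <;> rcases hj' with h2 | h2 | h2
    · exact absurd (hmem (lo (q i)) (by rw [h1]; simp) (by rw [h2]; simp)) id
    · exact ⟨hC ⟨i, by rw [h1]; simp⟩ ⟨j, by rw [h2]; simp⟩, Or.inr h2⟩
    · exact absurd (hmem (lo (q i)) (by rw [h1]; simp) (by rw [h2]; exact lo_mem _)) id
    · exact ⟨hC ⟨j, by rw [h2]; simp⟩ ⟨i, by rw [h1]; simp⟩, Or.inl h1⟩
    · exact absurd (hmem (hi (q i)) (by rw [h1]; simp) (by rw [h2]; simp)) id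
    · exact absurd (hmem (hi (q i)) (by rw [h1]; simp) (by rw [h2]; exact hi_mem _)) id
    · exact absurd (hmem (lo (q i)) (by rw [h1]; exact lo_mem _) (by rw [h2]; simp)) id
    · exact absurd (hmem (hi (q i)) (by rw [h1]; exact hi_mem _) (by rw [h2]; simp)) id
    · exact absurd (hmem (hi (q i)) (by rw [h1]; exact hi_mem _) (by rw [h2]; exact hi_mem _)) id
  let fib : Fin 5 → Finset (Fin n) := fun k => univ.filter fun i => q i = k
  have hfib2 : ∀ k, (fib k).card ≤ 2 := by
    intro k
    have h1 : ((fib k).biUnion A).card = ∑ i ∈ fib k, (A i).card :=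
      Finset.card_biUnion fun i _ j _ hij => hA.2.1 i j hij
    have h2 : (fib k).biUnion A ⊆ P k := by
      rw [Finset.biUnion_subset]
      intro i hi
      have : q i = k := (Finset.mem_filter.1 hi).2
      rw [← this]; exact hq i
    have h3 := Finset.card_le_card h2
    rw [P_card, h1] at h3
    have h4 : ∑ _i ∈ fib k, 1 ≤ ∑ i ∈ fib k, (A i).card :=
      Finset.sum_le_sum fun i _ => Finset.card_pos.2 (hAne i)
    rw [Finset.sum_const, smul_eq_mul, mul_one] at h4
    omega
  let Z : Finset (Fin 5) := univ.filter fun k => (fib k).card = 0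
  let T : Finset (Fin 5) := univ.filter fun k => (fib k).card = 2
  have hZT : Z.card ≤ T.card := by
    have h1 : ∑ k : Fin 5, (fib k).card = n := by
      have := Finset.card_eq_sum_card_fiberwise (f := q) (s := (univ : Finset (Fin n)))
        (t := (univ : Finset (Fin 5))) (fun _ _ => mem_coe.2 (mem_univ _))
      rw [Finset.card_univ, Fintype.card_fin] at this
      exact this.symm
    have h2 : ∀ k, (fib k).card + (if (fib k).card = 0 then 1 else 0) ≤
        1 + (if (fib k).card = 2 then 1 else 0) := by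
      intro k
      have := hfib2 k
      have hc : (fib k).card = 0 ∨ (fib k).card = 1 ∨ (fib k).card = 2 := by omega
      rcases hc with h | h | h <;> simp [h]
    have h3 := Finset.sum_le_sum fun k (_ : k ∈ (univ : Finset (Fin 5))) => h2 k
    rw [Finset.sum_add_distrib, Finset.sum_add_distrib, h1] at h3
    have h4 : ∑ k : Fin 5, (if (fib k).card = 0 then 1 else 0) = Z.card := by
      rw [Finset.card_filter]
    have h5 : ∑ k : Fin 5, (if (fib k).card = 2 then 1 else 0) = T.card := by
      rw [Finset.card_filter]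
    rw [h4, h5] at h3
    simp only [Finset.sum_const, Finset.card_univ, Fintype.card_fin, smul_eq_mul, mul_one] at h3
    omega
  obtain ⟨φ⟩ : Nonempty (Z ↪ T) := by
    apply Function.Embedding.nonempty_of_card_le
    simpa using hZT
  -- the fibre used for the pair `k`
  let ψ : Fin 5 → Fin 5 := fun k => if h : k ∈ Z then (φ ⟨k, h⟩ : Fin 5) else k
  have hT2 : ∀ k ∈ T, ∃ i, q i = k ∧ A i = {hi k} ∧ C k = ∅ := by
    intro k hk
    have hk2 : (fib k).card = 2 := (Finset.mem_filter.1 hk).2
    obtain ⟨i, j, hij, hf⟩ := Finset.card_eq_two.1 hk2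
    have hi1 : i ∈ fib k := by rw [hf]; simp
    have hj1 : j ∈ fib k := by rw [hf]; simp
    have hi2 : q i = k := (Finset.mem_filter.1 hi1).2
    have hj2 : q j = k := (Finset.mem_filter.1 hj1).2
    obtain ⟨h1, h2⟩ := htwo i j hij (by rw [hi2, hj2])
    rw [hi2] at h1 h2
    rcases h2 with h2 | h2
    · exact ⟨i, hi2, h2, h1⟩
    · exact ⟨j, hj2, h2, h1⟩
  have hψinj : ∀ k k', (C k).Nonempty → (C k').Nonempty → ψ k = ψ k' → k = k' := by
    intro k k' hk hk' h
    by_cases hz : k ∈ Z <;> by_cases hz' : k' ∈ Z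
    · simp only [ψ, hz, hz', dif_pos] at h
      have := φ.injective (Subtype.ext h)
      exact congrArg Subtype.val this
    · simp only [ψ, hz, hz', dif_pos, dif_neg, not_false_iff] at h
      obtain ⟨_, _, _, h2⟩ := hT2 _ (φ ⟨k, hz⟩).2
      rw [h] at h2
      exact absurd h2 hk'.ne_empty
    · simp only [ψ, hz, hz', dif_pos, dif_neg, not_false_iff] at h
      obtain ⟨_, _, _, h2⟩ := hT2 _ (φ ⟨k', hz'⟩).2
      rw [← h] at h2
      exact absurd h2 hk.ne_empty
    · simpa only [ψ, hz, hz', dif_neg, not_false_iff] using h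
  have hex : ∀ k, (C k).Nonempty → ∃ i, q i = ψ k ∧ ∃ x, A i = {x} ∧
      (splitGraph.induce ((insert x (C k) : Finset (Fin 10)) : Set (Fin 10))).Connected := by
    intro k hk
    by_cases hz : k ∈ Z
    · obtain ⟨i, h1, h2, h3⟩ := hT2 _ (φ ⟨k, hz⟩).2
      refine ⟨i, ?_, hi (φ ⟨k, hz⟩ : Fin 5), h2, ?_⟩
      · simp only [ψ, hz, dif_pos]; exact h1
      · have hfe : fib k = ∅ := Finset.card_eq_zero.1 (Finset.mem_filter.1 hz).2
        have hCk : C k = P k := by
          apply Finset.Subset.antisymm (hCsub k)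
          intro x hx
          refine Finset.mem_filter.2 ⟨hx, fun j hj => ?_⟩
          have hjk : q j = k := by
            by_contra hne
            exact (Finset.disjoint_left.1 (P_disj _ _ hne)) (hq j hj) hx
          have : j ∈ fib k := Finset.mem_filter.2 ⟨mem_univ _, hjk⟩
          rw [hfe] at this
          simp at this
        rw [hCk]
        apply conn_insert_P
        intro h
        rw [h] at h3
        exact hk.ne_empty h3
    · have hz2 : (fib k).card ≠ 0 := by
        intro h; exact hz (Finset.mem_filter.2 ⟨mem_univ _, h⟩)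
      obtain ⟨i, hi1⟩ := Finset.card_pos.1 (Nat.pos_of_ne_zero hz2)
      have hik : q i = k := (Finset.mem_filter.1 hi1).2
      have hnP : A i ≠ P k := by
        intro h
        obtain ⟨x, hx⟩ := hk
        exact hCun k x hx i (by rw [h]; exact hCsub k hx)
      obtain ⟨x, hx⟩ : ∃ x, A i = {x} := by
        have := hcases i
        rw [hik] at this
        rcases this with h | h | h
        · exact ⟨_, h⟩
        · exact ⟨_, h⟩
        · exact absurd h hnP
      refine ⟨i, ?_, x, hx, ?_⟩
      · simp only [ψ, hz, dif_neg, not_false_iff]; exact hik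
      · have hxP : x ∈ P k := by
          have := hq i
          rw [hik, hx] at this
          simpa using this
        have hxC : x ∉ C k := fun h => hCun k x h i (by rw [hx]; simp)
        have : insert x (C k) = P k := by
          apply Finset.eq_of_subset_of_card_le
          · rw [Finset.insert_subset_iff]; exact ⟨hxP, hCsub k⟩
          · rw [P_card, Finset.card_insert_of_notMem hxC]
            have := Finset.card_pos.2 hk
            omega
        rw [this]
        exact conn_P k
  -- choose the receiving agents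
  have hn0 : 0 < n := by omega
  have hch : ∀ k, ∃ i : Fin n, (C k).Nonempty → q i = ψ k ∧ ∃ x, A i = {x} ∧
      (splitGraph.induce ((insert x (C k) : Finset (Fin 10)) : Set (Fin 10))).Connected := by
    intro k
    by_cases hk : (C k).Nonempty
    · obtain ⟨i, hi⟩ := hex k hk
      exact ⟨i, fun _ => hi⟩
    · exact ⟨⟨0, hn0⟩, fun h => absurd h hk⟩
  choose a ha using hch
  have hainj : ∀ k k', (C k).Nonempty → (C k').Nonempty → a k = a k' → k = k' := by
    intro k k' hk hk' h
    apply hψinj k k' hk hk'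
    rw [← (ha k hk).1, ← (ha k' hk').1, h]
  let B : Fin n → Finset (Fin 10) := fun i =>
    A i ∪ (univ.filter fun k => a k = i).biUnion C
  have hBmem : ∀ i x, x ∈ B i ↔ x ∈ A i ∨ ∃ k, a k = i ∧ x ∈ C k := by
    intro i x
    simp only [B, Finset.mem_union, Finset.mem_biUnion, Finset.mem_filter, mem_univ, true_and]
  have hAB : ∀ i, A i ⊆ B i := fun i x hx => (hBmem i x).2 (Or.inl hx)
  have hBcase : ∀ j, B j = A j ∨ ∃ k x, (C k).Nonempty ∧ A j = {x} ∧ B j = insert x (C k) ∧
      (splitGraph.induce ((insert x (C k) : Finset (Fin 10)) : Set (Fin 10))).Connected := by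
    intro j
    by_cases hj : ∃ k, a k = j ∧ (C k).Nonempty
    · right
      obtain ⟨k, hkj, hk⟩ := hj
      obtain ⟨h1, x, h2, h3⟩ := ha k hk
      rw [hkj] at h2
      refine ⟨k, x, hk, h2, ?_, h3⟩
      ext y
      rw [hBmem, h2, Finset.mem_singleton, Finset.mem_insert]
      constructor
      · rintro (h | ⟨k', hk', hy⟩)
        · exact Or.inl h
        · right
          have : k' = k := hainj k' k ⟨y, hy⟩ hk (by rw [hk', hkj])
          rw [← this]; exact hy
      · rintro (h | h)
        · exact Or.inl h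
        · exact Or.inr ⟨k, hkj, h⟩
    · left
      ext y
      rw [hBmem]
      constructor
      · rintro (h | ⟨k', hk', hy⟩)
        · exact h
        · exact absurd ⟨k', hk', ⟨y, hy⟩⟩ hj
      · exact Or.inl
  refine ⟨B, ⟨fun i j hij => ?_, fun x => ?_⟩, fun j _ => ?_, fun i j => ?_⟩
  · rw [Finset.disjoint_left]
    intro x hx hy
    rw [hBmem] at hx hy
    rcases hx with hx | ⟨k, hk, hx⟩ <;> rcases hy with hy | ⟨l, hl, hy⟩
    · exact (Finset.disjoint_left.1 (hA.2.1 i j hij)) hx hy
    · exact hCun l x hy i hx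
    · exact hCun k x hx j hy
    · have : k = l := by
        by_contra hne
        exact (Finset.disjoint_left.1 (P_disj _ _ hne)) (hCsub k hx) (hCsub l hy)
      subst this
      exact hij (by rw [← hk, ← hl])
  · by_cases hx : ∃ j, x ∈ A j
    · obtain ⟨j, hj⟩ := hx
      exact ⟨j, hAB j hj⟩
    · push Not at hx
      obtain ⟨k, hk⟩ := P_cover x
      exact ⟨a k, (hBmem _ _).2 (Or.inr ⟨k, rfl, Finset.mem_filter.2 ⟨hk, hx⟩⟩)⟩
  · rcases hBcase j with h | ⟨k, x, _, _, h, h3⟩
    · rw [h]
      rcases hcases j with h | h | h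
      · rw [h]; exact conn_single _
      · rw [h]; exact conn_single _
      · rw [h]; exact conn_P _
    · rw [h]; exact h3
  · right
    have hle : v i (A i) ≤ v i (B i) := hmono i _ _ (hAB i)
    rcases hBcase j with h | ⟨k, x, hk, hjx, h, _⟩
    · rw [h]
      have hsing : ∀ y, A j = {y} → ∃ o, IsOuter splitGraph (A j) o ∧
          v i ((A j).erase o) ≤ v i (B i) := by
        intro y hy
        refine ⟨y, ⟨by rw [hy]; simp, Or.inl (by rw [hy]; simp)⟩, ?_⟩
        rw [hy, Finset.erase_singleton]
        exact hmono i _ _ (Finset.empty_subset _)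
      rcases hcases j with h1 | h1 | h1
      · exact hsing _ h1
      · exact hsing _ h1
      · have hlo : (P (q j)).erase (lo (q j)) = {hi (q j)} := by
          ext y
          simp only [P, Finset.mem_erase, Finset.mem_insert, Finset.mem_singleton]
          constructor
          · rintro ⟨h1, h2 | h2⟩
            · exact absurd h2 h1
            · exact h2
          · intro h2
            exact ⟨by rw [h2]; exact (lo_ne_hi _).symm, Or.inr h2⟩
        have hhi : (P (q j)).erase (hi (q j)) = {lo (q j)} := by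
          ext y
          simp only [P, Finset.mem_erase, Finset.mem_insert, Finset.mem_singleton]
          constructor
          · rintro ⟨h1, h2 | h2⟩
            · exact h2
            · exact absurd h2 h1
          · intro h2
            exact ⟨by rw [h2]; exact lo_ne_hi _, Or.inl h2⟩
        rcases hA.2.2 j _ h1 i with h2 | h2
        · refine ⟨hi (q j), ⟨by rw [h1]; exact hi_mem _, Or.inr ?_⟩, ?_⟩
          · rw [h1, hhi]; exact conn_single _
          · rw [h1, hhi]; exact h2.trans hle
        · refine ⟨lo (q j), ⟨by rw [h1]; exact lo_mem _, Or.inr ?_⟩, ?_⟩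
          · rw [h1, hlo]; exact conn_single _
          · rw [h1, hlo]; exact h2.trans hle
    · have hxC : x ∉ C k := fun hc => hCun k x hc j (by rw [hjx]; simp)
      obtain ⟨h1, h2⟩ := hCval k hk
      refine ⟨x, ⟨by rw [h]; simp, Or.inr ?_⟩, ?_⟩
      · rw [h, Finset.erase_insert hxC]; exact h2
      · rw [h, Finset.erase_insert hxC]; exact (h1 i).trans hle

end

end Pool.Agent.Helper99K9.EFM
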